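import Pool.Agent.N728.QU.Def

set_option autoImplicit false

/-! QU/EEB: the pointwise bound, uniformly in `c` (helper698; template by helper755 and helper728). -/

namespace Pool.Agent.N698.QU

open Finset Pool.Agent.N728.QL

noncomputable section

lemma Rg_neg (z : ℕ) (m : ℤ) : Rg 0 z (-m) ↔ Rg 0 z m := by
  unfold Rg
  simp only [dvd_neg]

lemma lz_neg (z : ℕ) (m : ℤ) : lz z (-m) = lz z m := by
  unfold lz
  by_cases h : Rg 0 z m
  · rw [if_pos h, if_pos ((Rg_neg z m).2 h)]
  · rw [if_neg h, if_neg fun h' => h ((Rg_neg z m).1 h')]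

lemma lz_sigma (z : ℕ) {σ : ℤ} (hσ : σ = 1 ∨ σ = -1) (n c : ℤ) :
    lz z (n + σ * c) = lz z (σ * n + c) := by
  rcases hσ with rfl | rfl
  · ring_nf
  · rw [show n + -1 * c = -(-1 * n + c) by ring, lz_neg]

theorem t_EEBu (hMER : S_MER) : Pool.Agent.N728.QU.S_EEBu := by
  obtain ⟨C, hC1, -, hC⟩ := hMER
  refine ⟨8 * C, by linarith, ?_⟩
  intro k z hk
  refine ⟨max (3 ^ k) 16, ?_⟩
  intro B hB c σ hσ hc z1 hz1 hz1'
  have hB3 : 3 ^ k ≤ B := (le_max_left _ _).trans hB
  have hB16 : 16 ≤ B := (le_max_right _ _).trans hB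
  have hz13 : 3 ≤ z1 := by
    by_contra hcon
    have : (z1 + 1) ^ k ≤ 3 ^ k := Nat.pow_le_pow_left (by omega) k
    omega
  refine ⟨by omega, ?_⟩
  intro n
  have hz1r : (3 : ℝ) ≤ z1 := by exact_mod_cast hz13
  have hB1 : (1 : ℝ) < B := by exact_mod_cast (by omega : 1 < B)
  have hlogB : 0 < Real.log B := Real.log_pos hB1
  have hkr : (2 : ℝ) ≤ k := by exact_mod_cast hk
  have hN0 := NN_nonneg (σ * c) z z1 n
  have hC0 : 0 < C := by linarith
  unfold Pool.Agent.N728.QU.EPu
  split_ifs with hn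
  swap
  · rw [abs_zero]
    positivity
  obtain ⟨hn1, hn2⟩ := hn
  have hlogz : Real.log B ≤ 2 * k * Real.log z1 := by
    have h1 : (B : ℝ) ≤ ((z1 : ℝ) ^ 2) ^ k := by
      have h2 : B ≤ (z1 ^ 2) ^ k := by
        refine hz1'.le.trans (Nat.pow_le_pow_left ?_ k)
        nlinarith
      exact_mod_cast h2
    have h3 := Real.log_le_log (by linarith) h1
    rw [← pow_mul, Real.log_pow] at h3
    push_cast at h3
    linarith
  have hV := (hC z1 (by omega)).1
  set m : ℤ := σ * (n : ℤ) + c with hm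
  have hlz := lz_nonneg z m
  have hlz1 := lz_nonneg z1 m
  have hlp : |Pool.Agent.N728.QL.lp m| ≤ 8 * C * k * lz z1 m := by
    unfold Pool.Agent.N728.QL.lp
    split_ifs with hp
    · have hm0 : 0 < m := by
        by_contra hcon
        have : m.toNat = 0 := by omega
        rw [this] at hp
        exact Nat.not_prime_zero hp
      have hmn : (m.toNat : ℤ) = m := by omega
      have hz1B : z1 ^ 2 ≤ B := le_trans (Nat.pow_le_pow_right (by omega) hk) hz1
      -- m > z1
      have hmz : (z1 : ℤ) < m := by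
        have h1 : z1 < B := by nlinarith
        have h2 : (z1 : ℤ) < B := by exact_mod_cast h1
        exact lt_of_lt_of_le h2 hn1
      have hrg : Rg 0 z1 m := by
        intro p hp1 _ hpz hdvd
        have h1 : p ∣ m.toNat := by
          rw [← hmn] at hdvd
          exact_mod_cast hdvd
        have h2 := (Nat.prime_dvd_prime_iff_eq hp1 hp).1 h1
        omega
      have hlz1e : lz z1 m = (VW 0 z1)⁻¹ := by
        unfold lz
        rw [if_pos hrg]
      rw [hlz1e]
      have hmle : (m : ℝ) ≤ (B : ℝ) ^ 4 := by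
        have h0 : σ * (n : ℤ) ≤ n := by
          rcases hσ with h | h <;> rw [h] <;> omega
        have h1 : m ≤ (B : ℤ) ^ 3 + (B : ℤ) ^ 3 := by
          have h2 : (n : ℤ) ≤ (B : ℤ) ^ 3 := by exact_mod_cast hn2
          have h3 : c ≤ (B : ℤ) ^ 3 := by
            have h4 : (c.natAbs : ℤ) ≤ (B : ℤ) ^ 3 := by exact_mod_cast hc
            exact Int.le_natAbs.trans h4
          omega
        have h2 : (B : ℤ) ^ 3 + (B : ℤ) ^ 3 ≤ (B : ℤ) ^ 4 := by
          have h4 : (16 : ℤ) ≤ B := by exact_mod_cast hB16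
          have h5 : (0 : ℤ) ≤ (B : ℤ) ^ 3 := by positivity
          have h6 : (B : ℤ) ^ 4 = (B : ℤ) ^ 3 * B := by ring
          rw [h6]
          nlinarith
        exact_mod_cast h1.trans h2
      have hm1 : (1 : ℝ) ≤ m := by exact_mod_cast (by omega : (1 : ℤ) ≤ m)
      rw [abs_of_nonneg (Real.log_nonneg hm1)]
      have h1 : Real.log m ≤ 4 * Real.log B := by
        have := Real.log_le_log (by linarith) hmle
        rw [Real.log_pow] at this
        exact_mod_cast this
      calc Real.log m ≤ 4 * Real.log B := h1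
        _ ≤ 4 * (2 * k * Real.log z1) := by linarith
        _ ≤ 4 * (2 * k * (C * (VW 0 z1)⁻¹)) := by
            have : (0 : ℝ) ≤ 4 * (2 * k) := by positivity
            nlinarith
        _ = 8 * C * k * (VW 0 z1)⁻¹ := by ring
    · rw [abs_zero]
      positivity
  have h1 : (1 : ℝ) ≤ 8 * C * k := by nlinarith
  unfold EE
  calc |Pool.Agent.N728.QL.lp m - lz z m| ≤ |Pool.Agent.N728.QL.lp m| + |lz z m| := abs_sub _ _
    _ ≤ 8 * C * k * lz z1 m + 8 * C * k * lz z m := by
        apply add_le_add hlp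
        rw [abs_of_nonneg hlz]
        nlinarith
    _ = 8 * C * k * NN (σ * c) z z1 n := by
        unfold NN
        rw [lz_sigma z hσ, lz_sigma z1 hσ]
        ring

end

end Pool.Agent.N698.QU
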